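import Mathlib

/-!
# A verified branch and bound checker for polynomial inequalities on the unit box (Bernstein form)

A polynomial in `n` variables of degree `d k` in the variable `x_k` is a tensor of integers: nested
lists; `[c_0, ..., c_D]` stands for `∑ c_j x^(D - j) (1 - x)^j`. `check tree ps`, `ps = p :: qs`,
bisects the box along the tree; at a leaf with the multipliers `m, l_1, l_2, ...` it checks that
`m p - ∑ l_j q_j` has nonnegative coefficients, where `m > 0`, or `m = 0` and some `l_j > 0`.
`check_sound`: if the check succeeds and all `q_j > 0` at a point of the unit box then `p ≥ 0` there.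
-/

set_option autoImplicit false

namespace Pool.Agent.Helper36.Bern

/-- tensors of integers -/
def T : ℕ → Type
  | 0 => ℤ
  | n + 1 => List (T n)

def add : (n : ℕ) → T n → T n → T n
  | 0, a, b => Int.add a b
  | n + 1, a, b => List.zipWith (add n) a b

def smul : (n : ℕ) → ℤ → T n → T n
  | 0, c, a => Int.mul c a
  | n + 1, c, a => List.map (smul n c) a

def isNN : ℤ → Bool
  | Int.ofNat _ => true
  | Int.negSucc _ => false

/-- all coefficients are nonnegative -/
def nn : (n : ℕ) → T n → Bool
  | 0, a => isNN a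
  | n + 1, a => List.all a (nn n)

/-- the shape -/
def wf : (n : ℕ) → (ℕ → ℕ) → T n → Bool
  | 0, _, _ => true
  | n + 1, d, a => (List.length a == d 0 + 1) && List.all a (wf n (fun i => d (i + 1)))

/-- the value of a binary form -/
noncomputable def hev : List ℝ → ℝ → ℝ → ℝ
  | [], _, _ => 0
  | c :: l, x, y => c * x ^ l.length + y * hev l x y

/-- the value of an integer -/
noncomputable def toR (a : ℤ) : ℝ := (a : ℝ)

/-- the value of a tensor -/
noncomputable def ev : (n : ℕ) → T n → (ℕ → ℝ) → ℝ
  | 0, a, _ => toR a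
  | n + 1, a, x => hev (List.map (fun t => ev n t (fun i => x (i + 1))) a) (x 0) (1 - x 0)

/-! ### Real lists -/

/-- `(x + 2 y) (p :: Q) = p :: gor p Q` -/
noncomputable def gor : ℝ → List ℝ → List ℝ
  | p, [] => [2 * p]
  | p, q :: Q => (q + 2 * p) :: gor q Q

theorem gor_length (p : ℝ) (Q : List ℝ) : (gor p Q).length = Q.length + 1 := by
  induction Q generalizing p with
  | nil => rfl
  | cons q Q ih => simp [gor, ih]

theorem hev_gor (x y p : ℝ) (Q : List ℝ) :
    hev (p :: gor p Q) x y = (x + 2 * y) * hev (p :: Q) x y := by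
  induction Q generalizing p with
  | nil => simp [gor, hev]; ring
  | cons q Q ih =>
    have h := ih q
    simp only [hev, gor, List.length_cons, gor_length] at h ⊢
    linear_combination y * h

/-- the form `P(x, x + 2 y)` -/
noncomputable def Lr : List ℝ → List ℝ
  | [] => []
  | c :: l => match Lr l with
    | [] => [c]
    | q :: Q => (c + q) :: gor q Q

theorem Lr_length (l : List ℝ) : (Lr l).length = l.length := by
  induction l with
  | nil => rfl
  | cons c l ih =>
    rw [Lr]
    rcases h : Lr l with _ | ⟨q, Q⟩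
    · rw [h] at ih
      simp only [List.length_nil] at ih
      simp [← ih]
    · rw [h] at ih
      simp only [List.length_cons] at ih
      simp [gor_length, ← ih]

theorem hev_Lr (x y : ℝ) (l : List ℝ) : hev (Lr l) x y = hev l x (x + 2 * y) := by
  induction l with
  | nil => rfl
  | cons c l ih =>
    have hl := Lr_length l
    rw [Lr]
    rcases h : Lr l with _ | ⟨q, Q⟩
    · rw [h] at ih hl
      have : l = [] := List.length_eq_zero_iff.1 (by simpa using hl.symm)
      subst this
      simp [hev]
    · rw [h] at ih hl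
      simp only [List.length_cons] at hl
      have h1 := hev_gor x y q Q
      have h2 : hev ((c + q) :: gor q Q) x y = c * x ^ (Q.length + 1) + hev (q :: gor q Q) x y := by
        simp only [hev, gor_length]
        ring
      simp only [h2, h1, ih]
      rw [hev, hl]

theorem hev_append (x y c : ℝ) (l : List ℝ) :
    hev (l ++ [c]) x y = x * hev l x y + c * y ^ l.length := by
  induction l with
  | nil => simp [hev]
  | cons a l ih =>
    simp only [List.cons_append, hev, ih, List.length_append, List.length_cons, List.length_nil]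
    ring

theorem hev_reverse (x y : ℝ) (l : List ℝ) : hev l.reverse x y = hev l y x := by
  induction l with
  | nil => rfl
  | cons a l ih =>
    rw [List.reverse_cons, hev_append, ih, hev, List.length_reverse]
    ring

/-- the form `P(2 x + y, y)` -/
noncomputable def Rr (l : List ℝ) : List ℝ := (Lr l.reverse).reverse

theorem hev_Rr (x y : ℝ) (l : List ℝ) : hev (Rr l) x y = hev l (2 * x + y) y := by
  rw [Rr, hev_reverse, hev_Lr, hev_reverse]
  congr 1
  ring

theorem hev_scale (x y : ℝ) (l : List ℝ) :
    2 * hev l (2 * x) (2 * y) = 2 ^ l.length * hev l x y := by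
  induction l with
  | nil => simp [hev]
  | cons a l ih =>
    simp only [hev, List.length_cons]
    have : 2 * (a * (2 * x) ^ l.length + 2 * y * hev l (2 * x) (2 * y)) =
        2 * a * (2 * x) ^ l.length + 2 * y * (2 * hev l (2 * x) (2 * y)) := by ring
    rw [this, ih, mul_pow]
    ring

/-- the left half -/
theorem hev_left (x : ℝ) (l : List ℝ) :
    2 * hev (Lr l) (2 * x) (1 - 2 * x) = 2 ^ l.length * hev l x (1 - x) := by
  rw [hev_Lr, ← hev_scale]
  congr 2
  ring

/-- the right half -/
theorem hev_right (x : ℝ) (l : List ℝ) :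
    2 * hev (Rr l) (2 * x - 1) (1 - (2 * x - 1)) = 2 ^ l.length * hev l x (1 - x) := by
  rw [hev_Rr, ← hev_scale]
  congr 2 <;> ring

theorem hev_nonneg {x y : ℝ} (hx : 0 ≤ x) (hy : 0 ≤ y) (l : List ℝ) (h : ∀ c ∈ l, 0 ≤ c) :
    0 ≤ hev l x y := by
  induction l with
  | nil => exact le_refl _
  | cons a l ih =>
    rw [hev]
    have h1 := h a (by simp)
    have h2 := ih fun c hc => h c (by simp [hc])
    positivity

theorem hev_map_mul (x y c : ℝ) (l : List ℝ) :
    hev (l.map fun a => c * a) x y = c * hev l x y := by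
  induction l with
  | nil => simp [hev]
  | cons a l ih =>
    simp only [List.map_cons, hev, ih, List.length_map]
    ring

theorem hev_zipWith (x y : ℝ) : ∀ l l' : List ℝ, l.length = l'.length →
    hev (List.zipWith (· + ·) l l') x y = hev l x y + hev l' x y
  | [], [], _ => by simp [hev]
  | [], _ :: _, h => by simp at h
  | _ :: _, [], h => by simp at h
  | a :: l, b :: l', h => by
    have h' : l.length = l'.length := by simpa using h
    simp only [List.zipWith_cons_cons, hev, List.length_zipWith, h', min_self,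
      hev_zipWith x y l l' h']
    ring

/-! ### Tensors -/

def goA (n : ℕ) : T n → List (T n) → List (T n)
  | p, [] => [smul n 2 p]
  | p, q :: Q => add n q (smul n 2 p) :: goA n q Q

def La (n : ℕ) : List (T n) → List (T n)
  | [] => []
  | c :: l => match La n l with
    | [] => [c]
    | q :: Q => add n c q :: goA n q Q

def Ra (n : ℕ) (l : List (T n)) : List (T n) := (La n l.reverse).reverse

/-- bisection in the variable `k`: the left half -/
def spL : (n : ℕ) → ℕ → T n → T n
  | 0, _, a => a
  | n + 1, 0, a => La n a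
  | n + 1, k + 1, a => List.map (spL n k) a

/-- the right half -/
def spR : (n : ℕ) → ℕ → T n → T n
  | 0, _, a => a
  | n + 1, 0, a => Ra n a
  | n + 1, k + 1, a => List.map (spR n k) a

theorem isNN_iff (a : ℤ) : isNN a = true ↔ 0 ≤ a := by
  cases a with
  | ofNat a => simp [isNN]
  | negSucc a => simp [isNN]

theorem ev_nonneg : ∀ (n : ℕ) (a : T n) (x : ℕ → ℝ), nn n a = true →
    (∀ i, 0 ≤ x i ∧ x i ≤ 1) → 0 ≤ ev n a x
  | 0, a, x, h, _ => by
    have h1 : (0 : ℤ) ≤ (show ℤ from a) := (isNN_iff a).1 h
    rw [ev, toR]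
    exact Int.cast_nonneg h1
  | n + 1, a, x, h, hx => by
    rw [ev]
    refine hev_nonneg (hx 0).1 (by linarith [(hx 0).2]) _ ?_
    intro c hc
    obtain ⟨t, ht, rfl⟩ := List.mem_map.1 hc
    refine ev_nonneg n t _ ?_ fun i => hx (i + 1)
    exact (List.all_eq_true.1 h) t ht

theorem ev_smul : ∀ (n : ℕ) (c : ℤ) (a : T n) (x : ℕ → ℝ),
    ev n (smul n c a) x = c * ev n a x
  | 0, c, a, x => by
    exact Int.cast_mul c (show ℤ from a)
  | n + 1, c, a, x => by
    change hev (List.map (fun t => ev n t (fun i => x (i + 1))) (List.map (smul n c) a)) (x 0)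
      (1 - x 0) = c * hev _ _ _
    rw [List.map_map, ← hev_map_mul, List.map_map]
    congr 1
    refine List.map_congr_left fun t _ => ?_
    exact ev_smul n c t _

/-- the shape as a proposition -/
def W (n : ℕ) (d : ℕ → ℕ) (a : T n) : Prop := wf n d a = true

theorem W_succ {n : ℕ} {d : ℕ → ℕ} {a : List (T n)} :
    W (n + 1) d a ↔ a.length = d 0 + 1 ∧ ∀ t ∈ a, W n (fun i => d (i + 1)) t := by
  unfold W
  rw [wf]
  simp only [Bool.and_eq_true, beq_iff_eq, List.all_eq_true]

theorem W_add : ∀ (n : ℕ) (d : ℕ → ℕ) (a b : T n), W n d a → W n d b → W n d (add n a b)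
  | 0, _, _, _, _, _ => rfl
  | n + 1, d, a, b, ha, hb => by
    rw [W_succ] at ha hb
    change W (n + 1) d (List.zipWith (add n) a b)
    rw [W_succ]
    refine ⟨by rw [List.length_zipWith, ha.1, hb.1, min_self], fun t ht => ?_⟩
    obtain ⟨i, hi, rfl⟩ := List.getElem_of_mem ht
    rw [List.getElem_zipWith]
    exact W_add n _ _ _ (ha.2 _ (List.getElem_mem _)) (hb.2 _ (List.getElem_mem _))

theorem W_smul : ∀ (n : ℕ) (d : ℕ → ℕ) (c : ℤ) (a : T n), W n d a → W n d (smul n c a)
  | 0, _, _, _, _ => rfl
  | n + 1, d, c, a, ha => by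
    rw [W_succ] at ha
    change W (n + 1) d (List.map (smul n c) a)
    rw [W_succ]
    refine ⟨by rw [List.length_map, ha.1], fun t ht => ?_⟩
    obtain ⟨s, hs, rfl⟩ := List.mem_map.1 ht
    exact W_smul n _ _ _ (ha.2 s hs)

theorem ev_add : ∀ (n : ℕ) (d : ℕ → ℕ) (a b : T n) (x : ℕ → ℝ), W n d a → W n d b →
    ev n (add n a b) x = ev n a x + ev n b x
  | 0, _, a, b, x, _, _ => by
    exact Int.cast_add (show ℤ from a) (show ℤ from b)
  | n + 1, d, a, b, x, ha, hb => by
    rw [W_succ] at ha hb
    change hev (List.map (fun t => ev n t (fun i => x (i + 1))) (List.zipWith (add n) a b)) (x 0)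
      (1 - x 0) = hev _ _ _ + hev _ _ _
    rw [← hev_zipWith _ _ _ _ (by rw [List.length_map, List.length_map, ha.1, hb.1])]
    congr 1
    refine List.ext_getElem (by simp) fun i h1 h2 => ?_
    simp only [List.getElem_map, List.getElem_zipWith]
    exact ev_add n _ _ _ _ (ha.2 _ (List.getElem_mem _)) (hb.2 _ (List.getElem_mem _))

section

variable {n : ℕ} {d : ℕ → ℕ}

theorem goA_length (p : T n) (Q : List (T n)) : (goA n p Q).length = Q.length + 1 := by
  induction Q generalizing p with
  | nil => rfl
  | cons q Q ih => simp [goA, ih]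

theorem W_goA (p : T n) (Q : List (T n)) (hp : W n d p) (hQ : ∀ t ∈ Q, W n d t) :
    ∀ t ∈ goA n p Q, W n d t := by
  induction Q generalizing p with
  | nil =>
    intro t ht
    simp only [goA, List.mem_singleton] at ht
    subst ht
    exact W_smul n d 2 p hp
  | cons q Q ih =>
    intro t ht
    simp only [goA, List.mem_cons] at ht
    have hq := hQ q (by simp)
    rcases ht with rfl | ht
    · exact W_add n d _ _ hq (W_smul n d 2 p hp)
    · exact ih q hq (fun t ht => hQ t (by simp [ht])) t ht

theorem map_goA (x : ℕ → ℝ) (p : T n) (Q : List (T n)) (hp : W n d p) (hQ : ∀ t ∈ Q, W n d t) :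
    (goA n p Q).map (fun t => ev n t x) = gor (ev n p x) (Q.map fun t => ev n t x) := by
  induction Q generalizing p with
  | nil => simp [goA, gor, ev_smul]
  | cons q Q ih =>
    have hq := hQ q (by simp)
    simp only [goA, gor, List.map_cons]
    rw [ih q hq fun t ht => hQ t (by simp [ht]), ev_add n d _ _ x hq (W_smul n d 2 p hp), ev_smul]
    norm_num

theorem La_length (l : List (T n)) : (La n l).length = l.length := by
  induction l with
  | nil => rfl
  | cons c l ih =>
    rw [La]
    rcases h : La n l with _ | ⟨q, Q⟩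
    · rw [h] at ih
      simp only [List.length_nil] at ih
      simp [← ih]
    · rw [h] at ih
      simp only [List.length_cons] at ih
      simp [goA_length, ← ih]

theorem W_La (l : List (T n)) (hl : ∀ t ∈ l, W n d t) : ∀ t ∈ La n l, W n d t := by
  induction l with
  | nil =>
    intro t ht
    simp [La] at ht
  | cons c l ih =>
    have hc := hl c (by simp)
    have ih' := ih fun t ht => hl t (by simp [ht])
    rw [La]
    rcases h : La n l with _ | ⟨q, Q⟩
    · intro t ht
      simp only [List.mem_singleton] at ht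
      rw [ht]
      exact hc
    · rw [h] at ih'
      intro t ht
      simp only [List.mem_cons] at ht
      have hq := ih' q (by simp)
      rcases ht with rfl | ht
      · exact W_add n d _ _ hc hq
      · exact W_goA q Q hq (fun t ht => ih' t (by simp [ht])) t ht

theorem map_La (x : ℕ → ℝ) (l : List (T n)) (hl : ∀ t ∈ l, W n d t) :
    (La n l).map (fun t => ev n t x) = Lr (l.map fun t => ev n t x) := by
  induction l with
  | nil => rfl
  | cons c l ih =>
    have hc := hl c (by simp)
    have hl' : ∀ t ∈ l, W n d t := fun t ht => hl t (by simp [ht])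
    have ih' := ih hl'
    have hW := W_La l hl'
    rw [La, List.map_cons, Lr, ← ih']
    rcases h : La n l with _ | ⟨q, Q⟩
    · simp
    · rw [h] at hW
      have hq := hW q (by simp)
      simp only [List.map_cons]
      rw [map_goA x q Q hq fun t ht => hW t (by simp [ht]), ev_add n d _ _ x hc hq]

theorem map_Ra (x : ℕ → ℝ) (l : List (T n)) (hl : ∀ t ∈ l, W n d t) :
    (Ra n l).map (fun t => ev n t x) = Rr (l.map fun t => ev n t x) := by
  rw [Ra, Rr, List.map_reverse, map_La x l.reverse fun t ht => hl t (by simpa using ht),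
    List.map_reverse]

end

theorem W_spL : ∀ (n k : ℕ) (d : ℕ → ℕ) (a : T n), W n d a → W n d (spL n k a)
  | 0, _, _, _, _ => rfl
  | n + 1, 0, d, a, ha => by
    rw [W_succ] at ha
    change W (n + 1) d (La n a)
    rw [W_succ]
    exact ⟨by rw [La_length, ha.1], W_La a ha.2⟩
  | n + 1, k + 1, d, a, ha => by
    rw [W_succ] at ha
    change W (n + 1) d (List.map (spL n k) a)
    rw [W_succ]
    refine ⟨by rw [List.length_map, ha.1], fun t ht => ?_⟩
    obtain ⟨s, hs, rfl⟩ := List.mem_map.1 ht
    exact W_spL n k _ _ (ha.2 s hs)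

theorem W_spR : ∀ (n k : ℕ) (d : ℕ → ℕ) (a : T n), W n d a → W n d (spR n k a)
  | 0, _, _, _, _ => rfl
  | n + 1, 0, d, a, ha => by
    rw [W_succ] at ha
    change W (n + 1) d (Ra n a)
    rw [W_succ]
    refine ⟨by rw [Ra, List.length_reverse, La_length, List.length_reverse, ha.1],
      fun t ht => ?_⟩
    rw [Ra, List.mem_reverse] at ht
    exact W_La _ (fun t ht => ha.2 t (by simpa using ht)) t ht
  | n + 1, k + 1, d, a, ha => by
    rw [W_succ] at ha
    change W (n + 1) d (List.map (spR n k) a)
    rw [W_succ]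
    refine ⟨by rw [List.length_map, ha.1], fun t ht => ?_⟩
    obtain ⟨s, hs, rfl⟩ := List.mem_map.1 ht
    exact W_spR n k _ _ (ha.2 s hs)

/-- the point seen from the left half in the direction `k` -/
noncomputable def ptL (k : ℕ) (x : ℕ → ℝ) (i : ℕ) : ℝ := if i = k then 2 * x i else x i

noncomputable def ptR (k : ℕ) (x : ℕ → ℝ) (i : ℕ) : ℝ := if i = k then 2 * x i - 1 else x i

theorem ptL_succ (k : ℕ) (x : ℕ → ℝ) :
    (fun i => ptL (k + 1) x (i + 1)) = ptL k (fun i => x (i + 1)) := by
  funext i
  simp [ptL]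

theorem ptR_succ (k : ℕ) (x : ℕ → ℝ) :
    (fun i => ptR (k + 1) x (i + 1)) = ptR k (fun i => x (i + 1)) := by
  funext i
  simp [ptR]

theorem ev_spL : ∀ (n k : ℕ) (d : ℕ → ℕ) (a : T n) (x : ℕ → ℝ), k < n → W n d a →
    ev n (spL n k a) (ptL k x) = 2 ^ (d k) * ev n a x
  | 0, _, _, _, _, h, _ => absurd h (Nat.not_lt_zero _)
  | n + 1, 0, d, a, x, _, ha => by
    rw [W_succ] at ha
    change hev (List.map (fun t => ev n t (fun i => ptL 0 x (i + 1))) (La n a)) (ptL 0 x 0)
      (1 - ptL 0 x 0) = 2 ^ d 0 * hev _ _ _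
    rw [map_La _ a ha.2]
    have e1 : (fun i => ptL 0 x (i + 1)) = fun i => x (i + 1) := by
      funext i
      simp [ptL]
    have e2 : ptL 0 x 0 = 2 * x 0 := by simp [ptL]
    rw [e1, e2]
    have := hev_left (x 0) (List.map (fun t => ev n t (fun i => x (i + 1))) a)
    rw [List.length_map, ha.1, pow_succ] at this
    linarith
  | n + 1, k + 1, d, a, x, hk, ha => by
    rw [W_succ] at ha
    change hev (List.map (fun t => ev n t (fun i => ptL (k + 1) x (i + 1))) (List.map (spL n k) a))
      (ptL (k + 1) x 0) (1 - ptL (k + 1) x 0) = 2 ^ d (k + 1) * hev _ _ _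
    have e2 : ptL (k + 1) x 0 = x 0 := by simp [ptL]
    rw [ptL_succ, e2, List.map_map, ← hev_map_mul, List.map_map]
    congr 1
    refine List.map_congr_left fun t ht => ?_
    exact ev_spL n k (fun i => d (i + 1)) t _ (by omega) (ha.2 t ht)

theorem ev_spR : ∀ (n k : ℕ) (d : ℕ → ℕ) (a : T n) (x : ℕ → ℝ), k < n → W n d a →
    ev n (spR n k a) (ptR k x) = 2 ^ (d k) * ev n a x
  | 0, _, _, _, _, h, _ => absurd h (Nat.not_lt_zero _)
  | n + 1, 0, d, a, x, _, ha => by
    rw [W_succ] at ha
    change hev (List.map (fun t => ev n t (fun i => ptR 0 x (i + 1))) (Ra n a)) (ptR 0 x 0)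
      (1 - ptR 0 x 0) = 2 ^ d 0 * hev _ _ _
    rw [map_Ra _ a ha.2]
    have e1 : (fun i => ptR 0 x (i + 1)) = fun i => x (i + 1) := by
      funext i
      simp [ptR]
    have e2 : ptR 0 x 0 = 2 * x 0 - 1 := by simp [ptR]
    rw [e1, e2]
    have := hev_right (x 0) (List.map (fun t => ev n t (fun i => x (i + 1))) a)
    rw [List.length_map, ha.1, pow_succ] at this
    linarith
  | n + 1, k + 1, d, a, x, hk, ha => by
    rw [W_succ] at ha
    change hev (List.map (fun t => ev n t (fun i => ptR (k + 1) x (i + 1))) (List.map (spR n k) a))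
      (ptR (k + 1) x 0) (1 - ptR (k + 1) x 0) = 2 ^ d (k + 1) * hev _ _ _
    have e2 : ptR (k + 1) x 0 = x 0 := by simp [ptR]
    rw [ptR_succ, e2, List.map_map, ← hev_map_mul, List.map_map]
    congr 1
    refine List.map_congr_left fun t ht => ?_
    exact ev_spR n k (fun i => d (i + 1)) t _ (by omega) (ha.2 t ht)

/-! ### The checker -/

/-- the tree of bisections -/
inductive Tree
  | leaf (m : ℕ) (ls : List ℕ)
  | split (k : ℕ) (l r : Tree)

/-- `m p - ∑ l_j q_j` -/
def comb (n : ℕ) (m : ℕ) (p : T n) : List (T n) → List ℕ → T n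
  | _ :: qs, 0 :: ls => comb n m p qs ls
  | q :: qs, l :: ls => add n (smul n (-(l : ℤ)) q) (comb n m p qs ls)
  | _, _ => smul n m p

/-- some multiplier is used -/
def anyPos {α : Type} : List α → List ℕ → Bool
  | _ :: qs, l :: ls => (Nat.ble 1 l) || anyPos qs ls
  | _, _ => false

def check (n : ℕ) : Tree → T n → List (T n) → Bool
  | Tree.leaf m ls, p, qs => (Nat.ble 1 m || anyPos qs ls) && nn n (comb n m p qs ls)
  | Tree.split k l r, p, qs => Nat.blt k n &&
      (check n l (spL n k p) (qs.map (spL n k)) && check n r (spR n k p) (qs.map (spR n k)))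

theorem W_comb {n : ℕ} {d : ℕ → ℕ} (m : ℕ) (p : T n) (hp : W n d p) :
    ∀ (qs : List (T n)) (ls : List ℕ), (∀ q ∈ qs, W n d q) → W n d (comb n m p qs ls)
  | [], _, _ => by
    rw [comb]
    · exact W_smul n d m p hp
    · simp
    · simp
  | q :: qs, [], _ => by
    rw [comb]
    · exact W_smul n d m p hp
    · simp
    · simp
  | q :: qs, 0 :: ls, h => by
    rw [comb]
    exact W_comb m p hp qs ls fun q hq => h q (by simp [hq])
  | q :: qs, (l + 1) :: ls, h => by
    rw [comb]
    · exact W_add n d _ _ (W_smul n d _ q (h q (by simp)))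
        (W_comb m p hp qs ls fun q hq => h q (by simp [hq]))
    · simp

theorem ev_comb {n : ℕ} {d : ℕ → ℕ} (m : ℕ) (p : T n) (x : ℕ → ℝ) (hp : W n d p) :
    ∀ (qs : List (T n)) (ls : List ℕ), (∀ q ∈ qs, W n d q) → (∀ q ∈ qs, 0 < ev n q x) →
      ev n (comb n m p qs ls) x ≤ m * ev n p x ∧
        (anyPos qs ls = true → ev n (comb n m p qs ls) x < m * ev n p x)
  | [], _, _, _ => by
    rw [comb]
    · refine ⟨le_of_eq (by rw [ev_smul]; norm_num), fun h => ?_⟩
      simp [anyPos] at h
    · simp
    · simp
  | _ :: qs, [], _, _ => by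
    rw [comb]
    · refine ⟨le_of_eq (by rw [ev_smul]; norm_num), fun h => ?_⟩
      simp [anyPos] at h
    · simp
    · simp
  | q :: qs, 0 :: ls, h, h' => by
    rw [comb]
    have := ev_comb m p x hp qs ls (fun q hq => h q (by simp [hq]))
      (fun q hq => h' q (by simp [hq]))
    refine ⟨this.1, fun ha => this.2 ?_⟩
    simpa [anyPos] using ha
  | q :: qs, (l + 1) :: ls, h, h' => by
    have hq := h' q (by simp)
    have hrec := ev_comb m p x hp qs ls (fun q hq => h q (by simp [hq]))
      (fun q hq => h' q (by simp [hq]))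
    rw [comb]
    · rw [ev_add n d _ _ x (W_smul n d _ q (h q (by simp)))
        (W_comb m p hp qs ls fun q hq => h q (by simp [hq])), ev_smul]
      have h1 : (((-((l + 1 : ℕ) : ℤ)) : ℤ) : ℝ) * ev n q x < 0 := by
        push_cast
        have : 0 < ((l : ℝ) + 1) * ev n q x := by positivity
        linarith
      exact ⟨by linarith [hrec.1], fun _ => by linarith [hrec.1]⟩
    · simp

theorem check_sound (n : ℕ) (d : ℕ → ℕ) : ∀ (tr : Tree) (p : T n) (qs : List (T n)),
    check n tr p qs = true → W n d p → (∀ q ∈ qs, W n d q) →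
    ∀ x : ℕ → ℝ, (∀ i, 0 ≤ x i ∧ x i ≤ 1) → (∀ q ∈ qs, 0 < ev n q x) → 0 ≤ ev n p x
  | Tree.leaf m ls, p, qs, h, hp, hq, x, hx, hqx => by
    rw [check, Bool.and_eq_true, Bool.or_eq_true] at h
    obtain ⟨h1, h2⟩ := h
    have h3 := ev_nonneg n _ x h2 hx
    have h4 := ev_comb m p x hp qs ls hq hqx
    rcases h1 with h1 | h1
    · have hm : 1 ≤ m := Nat.le_of_ble_eq_true h1
      have hm' : (0 : ℝ) < m := by exact_mod_cast hm
      have : 0 ≤ (m : ℝ) * ev n p x := h3.trans h4.1
      by_contra hcon
      push Not at hcon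
      nlinarith
    · have h5 := h4.2 h1
      by_contra hcon
      push Not at hcon
      have hm' : (0 : ℝ) ≤ m := by positivity
      nlinarith
  | Tree.split k l r, p, qs, h, hp, hq, x, hx, hqx => by
    rw [check, Bool.and_eq_true, Bool.and_eq_true] at h
    obtain ⟨hk, h1, h2⟩ := h
    have hk' : k < n := by simpa [Nat.blt] using hk
    have p2 : (0 : ℝ) < 2 ^ d k := by positivity
    rcases le_total (x k) (1 / 2) with hxk | hxk
    · have := check_sound n d l (spL n k p) (qs.map (spL n k)) h1 (W_spL n k d p hp)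
        (fun q hq' => by
          obtain ⟨s, hs, rfl⟩ := List.mem_map.1 hq'
          exact W_spL n k d s (hq s hs)) (ptL k x) (fun i => by
          unfold ptL
          split_ifs with hi
          · subst hi
            exact ⟨by linarith [(hx i).1], by linarith⟩
          · exact hx i) (fun q hq' => by
          obtain ⟨s, hs, rfl⟩ := List.mem_map.1 hq'
          rw [ev_spL n k d s x hk' (hq s hs)]
          exact mul_pos p2 (hqx s hs))
      rw [ev_spL n k d p x hk' hp] at this
      exact nonneg_of_mul_nonneg_right this p2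
    · have := check_sound n d r (spR n k p) (qs.map (spR n k)) h2 (W_spR n k d p hp)
        (fun q hq' => by
          obtain ⟨s, hs, rfl⟩ := List.mem_map.1 hq'
          exact W_spR n k d s (hq s hs)) (ptR k x) (fun i => by
          unfold ptR
          split_ifs with hi
          · subst hi
            exact ⟨by linarith, by linarith [(hx i).2]⟩
          · exact hx i) (fun q hq' => by
          obtain ⟨s, hs, rfl⟩ := List.mem_map.1 hq'
          rw [ev_spR n k d s x hk' (hq s hs)]
          exact mul_pos p2 (hqx s hs))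
      rw [ev_spR n k d p x hk' hp] at this
      exact nonneg_of_mul_nonneg_right this p2

end Pool.Agent.Helper36.Bern
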